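import Pool.Agent.Helper75_MTO.Base

/-! # MTO, module LAE: two Lagrangian subspaces (after `Helper90_MTF/Lag3.lean`) -/

set_option autoImplicit false

namespace Pool.Agent.MTO.H75

open Matrix Pool.Agent.MTO

variable {d : Type} [Fintype d] [DecidableEq d] {Ψ : Matrix d d ℂ} {w : ℕ}
  {V : ℕ → Submodule ℂ (d → ℂ)} {g : Submodule ℂ (Matrix d d ℂ)}

theorem phi_wd (hW : WedStmt) (hs : Ψᵀ = Ψ) (x y u v : d → ℂ) : phi Ψ x y (wd Ψ u v) =
    psi Ψ v x * psi Ψ y u - psi Ψ u x * psi Ψ y v := by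
  rw [phi_apply, (hW d Ψ hs).1 u v x, map_sub, map_smul, map_smul, smul_eq_mul, smul_eq_mul,
    psi_apply v x, psi_apply u x]

omit [DecidableEq d] in
/-- twice the number of basis vectors of degree `p` or `w - p` is at most `κ` -/
theorem count_le {s : ℕ} {U U' : Submodule ℂ (d → ℂ)} (hc : IsCompl U U')
    (e e' : Fin s → (d → ℂ)) (p : Fin s → ℕ) (he : LinearIndependent ℂ e)
    (he' : LinearIndependent ℂ e')
    (heU : ∀ j, e j ∈ U) (he'U : ∀ j, e' j ∈ U') (hep : ∀ j, e j ∈ V (p j))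
    (he'p : ∀ j, e' j ∈ V (w - p j)) (q : ℕ) (hq : q ≤ w) :
    2 * (Finset.univ.filter fun j : Fin s => p j = q ∨ p j = w - q).card ≤
      Module.finrank ℂ ↥(V q ⊔ V (w - q)) := by
  have hsum : LinearIndependent ℂ (Sum.elim e e') := by
    apply LinearIndependent.sum_type he he'
    have h1 : Submodule.span ℂ (Set.range e) ≤ U := by
      rw [Submodule.span_le]
      rintro _ ⟨j, rfl⟩
      exact heU j
    have h2 : Submodule.span ℂ (Set.range e') ≤ U' := by
      rw [Submodule.span_le]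
      rintro _ ⟨j, rfl⟩
      exact he'U j
    exact hc.disjoint.mono h1 h2
  let A : Type := {j : Fin s // p j = q ∨ p j = w - q} ⊕ {j : Fin s // p j = q ∨ p j = w - q}
  let ι : A → Fin s ⊕ Fin s := Sum.map Subtype.val Subtype.val
  have hι : Function.Injective ι := Function.Injective.sumMap Subtype.val_injective
    Subtype.val_injective
  have hmem : ∀ a : A, Sum.elim e e' (ι a) ∈ V q ⊔ V (w - q) := by
    rintro (⟨j, hj⟩ | ⟨j, hj⟩)
    · change e j ∈ V q ⊔ V (w - q)
      rcases hj with hj | hj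
      · have := hep j
        rw [hj] at this
        exact Submodule.mem_sup_left this
      · have := hep j
        rw [hj] at this
        exact Submodule.mem_sup_right this
    · change e' j ∈ V q ⊔ V (w - q)
      rcases hj with hj | hj
      · have := he'p j
        rw [hj] at this
        exact Submodule.mem_sup_right this
      · have := he'p j
        have h3 : w - p j = q := by omega
        rw [h3] at this
        exact Submodule.mem_sup_left this
  have h6 : LinearIndependent ℂ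
      (fun a : A => (⟨Sum.elim e e' (ι a), hmem a⟩ : ↥(V q ⊔ V (w - q)))) := by
    have h7 : LinearIndependent ℂ (fun a : A => Sum.elim e e' (ι a)) := hsum.comp _ hι
    rw [Fintype.linearIndependent_iff] at h7 ⊢
    intro c hc0
    apply h7 c
    have := congrArg (fun z : ↥(V q ⊔ V (w - q)) => (z : d → ℂ)) hc0
    simpa using this
  have h8 := h6.fintype_card_le_finrank
  have h9 : Fintype.card A = 2 * (Finset.univ.filter
      fun j : Fin s => p j = q ∨ p j = w - q).card := by
    change Fintype.card ({j : Fin s // p j = q ∨ p j = w - q} ⊕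
      {j : Fin s // p j = q ∨ p j = w - q}) = _
    rw [Fintype.card_sum, Fintype.card_subtype]
    ring
  rw [h9] at h8
  exact h8

/-- the number of independent rotations is at most `m` -/
theorem pairs_le (hW : WedStmt) (hL : HE w Ψ V g) {m : ℕ} (hD : MTF.Dep Ψ V g m)
    {U U' : Submodule ℂ (d → ℂ)} (hU : MTF.Stab g U) (hU' : MTF.Stab g U')
    (hi : ∀ x ∈ U, ∀ y ∈ U, x ⬝ᵥ (Ψ *ᵥ y) = 0) (hi' : ∀ x ∈ U', ∀ y ∈ U', x ⬝ᵥ (Ψ *ᵥ y) = 0)
    {s : ℕ} (e e' : Fin s → (d → ℂ)) (p : Fin s → ℕ)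
    (heU : ∀ j, e j ∈ U) (he'U : ∀ j, e' j ∈ U') (hep : ∀ j, e j ∈ V (p j))
    (he'p : ∀ j, e' j ∈ V (w - p j)) (hpw : ∀ j, p j ≤ w)
    (he' : ∀ i j, psi Ψ (e i) (e' j) = if i = j then 1 else 0) :
    (Finset.univ.filter fun q : Fin s × Fin s => q.1 < q.2 ∧ p q.1 + p q.2 ≠ w).card ≤ m := by
  by_contra hlt
  push Not at hlt
  have hs : Ψᵀ = Ψ := hL.symm
  have hsw : ∀ i j, psi Ψ (e' j) (e i) = if i = j then 1 else 0 := by
    intro i j
    rw [psi_swap hs, he' i j]
  have hee : ∀ i j, psi Ψ (e i) (e j) = 0 := fun i j => by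
    rw [psi_apply]; exact hi _ (heU i) _ (heU j)
  have hee' : ∀ i j, psi Ψ (e' i) (e' j) = 0 := fun i j => by
    rw [psi_apply]; exact hi' _ (he'U i) _ (he'U j)
  let A : Type := {q : Fin s × Fin s // q.1 < q.2 ∧ p q.1 + p q.2 ≠ w}
  have hA : m + 1 ≤ Fintype.card A := by
    have h4 : Fintype.card A =
        (Finset.univ.filter fun q : Fin s × Fin s => q.1 < q.2 ∧ p q.1 + p q.2 ≠ w).card := by
      change Fintype.card {q : Fin s × Fin s // q.1 < q.2 ∧ p q.1 + p q.2 ≠ w} = _
      rw [Fintype.card_subtype]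
    omega
  obtain ⟨σ⟩ : Nonempty (Fin (m + 1) ↪ A) :=
    Function.Embedding.nonempty_of_card_le (by rw [Fintype.card_fin]; exact hA)
  let X : Fin s × Fin s → Matrix d d ℂ := fun q =>
    if w < p q.1 + p q.2 then wd Ψ (e' q.1) (e' q.2) else wd Ψ (e q.1) (e q.2)
  let Φ : Fin s × Fin s → (Matrix d d ℂ →ₗ[ℂ] ℂ) := fun q =>
    if w < p q.1 + p q.2 then phi Ψ (e q.1) (e q.2) else phi Ψ (e' q.1) (e' q.2)
  have hXsk : ∀ q, X q ∈ MTF.sk Ψ := by
    intro q
    change (if w < p q.1 + p q.2 then wd Ψ (e' q.1) (e' q.2) else wd Ψ (e q.1) (e q.2)) ∈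
      MTF.sk Ψ
    split_ifs
    · exact (hW d Ψ hs).2.1 _ _
    · exact (hW d Ψ hs).2.1 _ _
  have hΦv : ∀ a : A, g ⊔ MTF.F0 V ≤ LinearMap.ker (Φ a.1) := by
    intro a
    have hw := a.2.2
    have hp1 := hpw a.1.1
    have hp2 := hpw a.1.2
    change g ⊔ MTF.F0 V ≤ LinearMap.ker (if w < p a.1.1 + p a.1.2 then
      phi Ψ (e a.1.1) (e a.1.2) else phi Ψ (e' a.1.1) (e' a.1.2))
    split_ifs with hlt'
    · exact phi_vanish hL hU hi hlt' (heU _) (hep _) (heU _) (hep _)
    · exact phi_vanish hL hU' hi' (p := w - p a.1.1) (q := w - p a.1.2) (by omega)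
        (he'U _) (he'p _) (he'U _) (he'p _)
  have hne0 : ∀ a : A, Φ a.1 (X a.1) ≠ 0 := by
    intro a
    have hne : a.1.1 ≠ a.1.2 := ne_of_lt a.2.1
    change (if w < p a.1.1 + p a.1.2 then phi Ψ (e a.1.1) (e a.1.2)
        else phi Ψ (e' a.1.1) (e' a.1.2))
      (if w < p a.1.1 + p a.1.2 then wd Ψ (e' a.1.1) (e' a.1.2)
        else wd Ψ (e a.1.1) (e a.1.2)) ≠ 0
    split_ifs with hlt'
    · rw [phi_wd hW hs, hsw, hsw, he', he', if_neg hne, if_pos rfl, if_pos rfl]
      norm_num
    · rw [phi_wd hW hs, hsw, hsw, he', he', if_neg (Ne.symm hne), if_pos rfl, if_pos rfl]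
      norm_num
  have hz : ∀ q r : Fin s × Fin s, ¬ (q.1 = r.1 ∧ q.2 = r.2) → ¬ (q.1 = r.2 ∧ q.2 = r.1) →
      Φ q (X r) = 0 := by
    intro q r h4 h5
    have hd1 : ∀ (P Q : Prop) [Decidable P] [Decidable Q] (x y : ℂ), ¬ (P ∧ Q) →
        (if P then x else 0) * (if Q then y else 0) = (0 : ℂ) := by
      intro P Q _ _ x y h
      by_cases hP : P
      · rw [if_neg (fun hQ => h ⟨hP, hQ⟩), mul_zero]
      · rw [if_neg hP, zero_mul]
    change (if w < p q.1 + p q.2 then phi Ψ (e q.1) (e q.2) else phi Ψ (e' q.1) (e' q.2))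
      (if w < p r.1 + p r.2 then wd Ψ (e' r.1) (e' r.2) else wd Ψ (e r.1) (e r.2)) = 0
    by_cases h6 : w < p q.1 + p q.2 <;> by_cases h7 : w < p r.1 + p r.2
    · rw [if_pos h6, if_pos h7, phi_wd hW hs, hsw, hsw, he', he',
        hd1 _ _ _ _ (fun h => h5 ⟨h.1, h.2⟩), hd1 _ _ _ _ (fun h => h4 ⟨h.1, h.2⟩), sub_zero]
    · rw [if_pos h6, if_neg h7, phi_wd hW hs, hee r.2 q.1, hee r.1 q.1, zero_mul, zero_mul,
        sub_zero]
    · rw [if_neg h6, if_pos h7, phi_wd hW hs, hee' r.2 q.1, hee' r.1 q.1, zero_mul, zero_mul,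
        sub_zero]
    · rw [if_neg h6, if_neg h7, phi_wd hW hs, hsw, hsw, he', he',
        hd1 _ _ _ _ (fun h => h5 ⟨h.1.symm, h.2.symm⟩),
        hd1 _ _ _ _ (fun h => h4 ⟨h.1.symm, h.2.symm⟩), sub_zero]
  obtain ⟨l, hl0, hl⟩ := hD (fun k => X (σ k).1) (fun k => hXsk _)
  apply hl0
  funext k
  have h4 := hΦv (σ k) hl
  rw [LinearMap.mem_ker, map_sum, Finset.sum_eq_single k] at h4
  · rw [map_smul, smul_eq_mul] at h4
    exact (mul_eq_zero.mp h4).resolve_right (hne0 _)
  · intro j _ hjk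
    have h5 : σ k ≠ σ j := fun h => hjk (σ.injective h).symm
    rw [map_smul, hz, smul_zero]
    · rintro ⟨h6, h7⟩
      exact h5 (Subtype.ext (Prod.ext h6 h7))
    · rintro ⟨h6, h7⟩
      have h8 := (σ k).2.1
      have h9 := (σ j).2.1
      rw [h6, h7] at h8
      exact absurd h8 (not_lt.mpr h9.le)
  · intro h; exact absurd (Finset.mem_univ k) h

/-! ### counting -/

theorem fold (G : ℕ → ℕ) (h : ℕ) :
    ∑ q ∈ Finset.range (2 * h + 1), G q = G h + ∑ q ∈ Finset.range h, (G q + G (2 * h - q)) := by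
  have e0 : 2 * h + 1 = h + (h + 1) := by ring
  rw [e0, Finset.sum_range_add, Finset.sum_range_succ', Finset.sum_add_distrib]
  have e1 := Finset.sum_range_reflect (fun i => G (2 * h - i)) h
  have e2 : ∑ j ∈ Finset.range h, G (2 * h - (h - 1 - j)) = ∑ k ∈ Finset.range h, G (h + (k + 1)) := by
    apply Finset.sum_congr rfl
    intro j hj
    rw [Finset.mem_range] at hj
    congr 1
    omega
  rw [← e2, e1, add_zero]
  ring

/-- number of basis vectors of degree `q` -/
def uu {s : ℕ} (p : Fin s → ℕ) (q : ℕ) : ℕ := (Finset.univ.filter fun j : Fin s => p j = q).card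

theorem sum_uu {s : ℕ} (p : Fin s → ℕ) (h : ℕ) (hp : ∀ j, p j ≤ 2 * h) :
    s = uu p h + ∑ q ∈ Finset.range h, (uu p q + uu p (2 * h - q)) := by
  rw [← fold (uu p) h]
  have h1 := Finset.card_eq_sum_card_fiberwise (s := (Finset.univ : Finset (Fin s)))
    (f := p) (t := Finset.range (2 * h + 1)) (by
      intro j _
      rw [Finset.mem_coe, Finset.mem_range]
      have := hp j
      omega)
  rw [Finset.card_univ, Fintype.card_fin] at h1
  exact h1

theorem pairs_w {s : ℕ} (p : Fin s → ℕ) (h : ℕ) (hp : ∀ j, p j ≤ 2 * h) :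
    (Finset.univ.filter fun q : Fin s × Fin s => p q.1 + p q.2 = 2 * h).card =
      uu p h * uu p h + 2 * ∑ q ∈ Finset.range h, uu p q * uu p (2 * h - q) := by
  have h1 : (Finset.univ.filter fun q : Fin s × Fin s => p q.1 + p q.2 = 2 * h).card =
      ∑ i : Fin s, uu p (2 * h - p i) := by
    rw [Finset.card_filter, Fintype.sum_prod_type]
    apply Finset.sum_congr rfl
    intro i _
    unfold uu
    rw [Finset.card_filter]
    apply Finset.sum_congr rfl
    intro j _
    have := hp i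
    have h2 : (p i + p j = 2 * h) ↔ (p j = 2 * h - p i) := by omega
    simp only [h2]
  have h3 : ∑ i : Fin s, uu p (2 * h - p i) =
      ∑ q ∈ Finset.range (2 * h + 1), uu p q * uu p (2 * h - q) := by
    rw [← Finset.sum_fiberwise_of_maps_to (s := (Finset.univ : Finset (Fin s)))
      (t := Finset.range (2 * h + 1)) (g := p) (by
        intro j _
        rw [Finset.mem_range]
        have := hp j
        omega)]
    apply Finset.sum_congr rfl
    intro q _
    have h4 : ∀ i ∈ Finset.univ.filter (fun i : Fin s => p i = q),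
        uu p (2 * h - p i) = uu p (2 * h - q) := by
      intro i hi
      rw [(Finset.mem_filter.mp hi).2]
    rw [Finset.sum_congr rfl h4, Finset.sum_const, smul_eq_mul]
    rfl
  rw [h1, h3, fold (fun q => uu p q * uu p (2 * h - q)) h]
  have e1 : 2 * h - h = h := by omega
  rw [e1]
  congr 1
  rw [Finset.mul_sum]
  apply Finset.sum_congr rfl
  intro q hq
  rw [Finset.mem_range] at hq
  have e2 : 2 * h - (2 * h - q) = q := by omega
  rw [e2]
  ring

theorem pairs_all {s : ℕ} (p : Fin s → ℕ) (h : ℕ) :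
    s * s + uu p h =
      2 * (Finset.univ.filter fun q : Fin s × Fin s => q.1 < q.2 ∧ p q.1 + p q.2 ≠ 2 * h).card +
        s + (Finset.univ.filter fun q : Fin s × Fin s => p q.1 + p q.2 = 2 * h).card := by
  have hswap : (Finset.univ.filter
      fun q : Fin s × Fin s => q.2 < q.1 ∧ p q.1 + p q.2 ≠ 2 * h).card =
      (Finset.univ.filter
      fun q : Fin s × Fin s => q.1 < q.2 ∧ p q.1 + p q.2 ≠ 2 * h).card := by
    apply Finset.card_bij (fun q _ => (q.2, q.1))
    · intro q hq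
      rw [Finset.mem_filter] at hq ⊢
      refine ⟨Finset.mem_univ _, hq.2.1, ?_⟩
      change p q.2 + p q.1 ≠ 2 * h
      rw [add_comm]
      exact hq.2.2
    · intro a _ b _ hab
      exact Prod.ext (congrArg Prod.snd hab) (congrArg Prod.fst hab)
    · intro q hq
      rw [Finset.mem_filter] at hq
      refine ⟨(q.2, q.1), ?_, rfl⟩
      rw [Finset.mem_filter]
      refine ⟨Finset.mem_univ _, hq.2.1, ?_⟩
      change p q.2 + p q.1 ≠ 2 * h
      rw [add_comm]
      exact hq.2.2
  have hdiag : (Finset.univ.filter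
      fun q : Fin s × Fin s => q.1 = q.2 ∧ p q.1 + p q.2 ≠ 2 * h).card + uu p h = s := by
    have h1 : (Finset.univ.filter
        fun q : Fin s × Fin s => q.1 = q.2 ∧ p q.1 + p q.2 ≠ 2 * h).card =
        (Finset.univ.filter fun j : Fin s => ¬ p j = h).card := by
      symm
      apply Finset.card_bij (fun j _ => (j, j))
      · intro j hj
        rw [Finset.mem_filter] at hj ⊢
        refine ⟨Finset.mem_univ _, rfl, ?_⟩
        change p j + p j ≠ 2 * h
        have := hj.2
        omega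
      · intro a _ b _ hab
        exact congrArg Prod.fst hab
      · rintro ⟨a, b⟩ hq
        rw [Finset.mem_filter] at hq
        have hab : a = b := hq.2.1
        have hne : p a + p b ≠ 2 * h := hq.2.2
        subst hab
        refine ⟨a, ?_, rfl⟩
        rw [Finset.mem_filter]
        exact ⟨Finset.mem_univ _, by omega⟩
    rw [h1, add_comm]
    unfold uu
    rw [Finset.card_filter_add_card_filter_not, Finset.card_univ, Fintype.card_fin]
  have htot : s * s =
      (Finset.univ.filter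
        fun q : Fin s × Fin s => q.1 < q.2 ∧ p q.1 + p q.2 ≠ 2 * h).card +
      (Finset.univ.filter
        fun q : Fin s × Fin s => q.2 < q.1 ∧ p q.1 + p q.2 ≠ 2 * h).card +
      (Finset.univ.filter
        fun q : Fin s × Fin s => q.1 = q.2 ∧ p q.1 + p q.2 ≠ 2 * h).card +
      (Finset.univ.filter fun q : Fin s × Fin s => p q.1 + p q.2 = 2 * h).card := by
    have h1 : s * s = ∑ _q : Fin s × Fin s, 1 := by
      rw [Finset.sum_const, Finset.card_univ, Fintype.card_prod, Fintype.card_fin, smul_eq_mul,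
        mul_one]
    rw [Finset.card_filter, Finset.card_filter, Finset.card_filter, Finset.card_filter,
      ← Finset.sum_add_distrib, ← Finset.sum_add_distrib, ← Finset.sum_add_distrib]
    rw [h1]
    apply Finset.sum_congr rfl
    intro q _
    by_cases hw : p q.1 + p q.2 = 2 * h
    · simp [hw]
    · rcases lt_trichotomy q.1 q.2 with hq | hq | hq
      · have h2 : ¬ q.2 < q.1 := not_lt.mpr hq.le
        have h3 : ¬ q.1 = q.2 := ne_of_lt hq
        simp [hw, hq, h2, h3]
      · simp [hq]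
        rw [hq] at hw
        simp [hw]
      · have h2 : ¬ q.1 < q.2 := not_lt.mpr hq.le
        have h3 : ¬ q.1 = q.2 := ne_of_gt hq
        simp [hw, hq, h2, h3]
  omega

theorem lae (hW : WedStmt) (hN : NleStmt) : LaeStmt := by
  intro d _ _ w Ψ V g hL κ m hκ hD U U' hU hU' hne hc hi hi'
  have h1 := finrank_le hL hU hU' hc hi
  have h2 := finrank_le hL hU' hU hc.symm hi'
  have h3 : Module.finrank ℂ U + Module.finrank ℂ U' = Fintype.card d := by
    rw [Submodule.finrank_add_eq_of_isCompl hc, Module.finrank_fintype_fun_eq_card]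
  obtain ⟨s, hsdef, e, p, he, heU, hep⟩ : ∃ s, Module.finrank ℂ U = s ∧
      ∃ (e : Fin s → (d → ℂ)) (p : Fin s → ℕ),
        LinearIndependent ℂ e ∧ (∀ j, e j ∈ U) ∧ ∀ j, e j ∈ V (p j) :=
    ⟨_, rfl, hom_basis hL hU⟩
  obtain ⟨e', he'U, he'p, he'⟩ := dual hL hU hU' hc hi e p he heU hep
  rw [hsdef] at h1 h2 h3
  have hpw : ∀ j, p j ≤ w := fun j => le_w hL (hep j) (he.ne_zero j)
  have hind := indep_of_dual e e' he'
  have hpairs := pairs_le hW hL hD hU hU' hi hi' e e' p heU he'U hep he'p hpw he'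
  have hcnt := fun q hq => count_le (V := V) (w := w) hc e e' p he hind heU he'U hep he'p q hq
  obtain ⟨h, hh⟩ := hL.even
  have hw : w = 2 * h := by omega
  subst hw
  have hall := pairs_all p h
  have hBw := pairs_w p h hpw
  have hsu := sum_uu p h hpw
  -- the bounds for `κ`
  have hk1 : 2 * uu p h ≤ κ := by
    refine le_trans ?_ (le_trans (hcnt h (by omega)) (hκ h (by omega)))
    apply Nat.mul_le_mul_left
    apply Finset.card_le_card
    intro j hj
    rw [Finset.mem_filter] at hj ⊢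
    exact ⟨Finset.mem_univ _, Or.inl hj.2⟩
  have hk2 : ∀ q : Fin h, 2 * (uu p (q : ℕ) + uu p (2 * h - (q : ℕ))) ≤ κ := by
    intro q
    have hq := q.2
    refine le_trans ?_ (le_trans (hcnt (q : ℕ) (by omega)) (hκ (q : ℕ) (by omega)))
    apply Nat.mul_le_mul_left
    unfold uu
    rw [← Finset.card_union_of_disjoint]
    · apply Finset.card_le_card
      intro j hj
      rw [Finset.mem_union, Finset.mem_filter, Finset.mem_filter] at hj
      rw [Finset.mem_filter]
      rcases hj with hj | hj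
      · exact ⟨Finset.mem_univ _, Or.inl hj.2⟩
      · exact ⟨Finset.mem_univ _, Or.inr hj.2⟩
    · rw [Finset.disjoint_left]
      intro j hj hj'
      rw [Finset.mem_filter] at hj hj'
      have h5 := hj.2
      have h6 := hj'.2
      omega
  have hnle := hN (Fin h) (uu p h) (fun q => uu p (q : ℕ)) (fun q => uu p (2 * h - (q : ℕ))) κ
    hk1 hk2
  rw [Finset.sum_range] at hsu hBw
  obtain ⟨r, hr⟩ : ∃ r : ℕ, r = ∑ q : Fin h, (uu p (q : ℕ) + uu p (2 * h - (q : ℕ))) :=
    ⟨_, rfl⟩
  obtain ⟨S, hS⟩ : ∃ S : ℕ, S = ∑ q : Fin h, uu p (q : ℕ) * uu p (2 * h - (q : ℕ)) :=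
    ⟨_, rfl⟩
  obtain ⟨N, hNd⟩ : ∃ N : ℕ, N = (Finset.univ.filter
      fun q : Fin s × Fin s => q.1 < q.2 ∧ p q.1 + p q.2 ≠ 2 * h).card := ⟨_, rfl⟩
  obtain ⟨c, hcd⟩ : ∃ c : ℕ, c = uu p h := ⟨_, rfl⟩
  rw [← hNd] at hall hpairs
  rw [← hr, ← hS, ← hcd] at hnle
  rw [← hr, ← hcd] at hsu
  rw [← hS, ← hcd] at hBw
  rw [hBw, ← hcd] at hall
  have hs : s = c + r := hsu
  rw [hs] at hall h3 h1 h2
  have h5 : 2 * (c + r) = Fintype.card d := by omega
  nlinarith [hall, hnle, hpairs, h5]

end Pool.Agent.MTO.H75
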