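import Pool.Agent.MTO.Stmts
import Pool.Agent.Helper90_MTF.Lag2

/-! # MTO: tools for `HE` (even weight), after `Helper90_MTF/Lag*.lean` -/

set_option autoImplicit false

namespace Pool.Agent.MTO.H75

open Matrix Pool.Agent.MTO

variable {d : Type} [Fintype d] [DecidableEq d] {Ψ : Matrix d d ℂ} {w : ℕ}
  {V : ℕ → Submodule ℂ (d → ℂ)} {g : Submodule ℂ (Matrix d d ℂ)}

/-- stable subspaces are graded -/
theorem graded (hL : HE w Ψ V g) {U : Submodule ℂ (d → ℂ)} (hU : MTF.Stab g U) (u : d → ℂ)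
    (hu : u ∈ U) :
    ∃ f : ℕ →₀ (d → ℂ), (∀ p, f p ∈ U ⊓ V p) ∧ f.sum (fun _ x => x) = u := by
  obtain ⟨H, hHg, hH⟩ := hL.hh
  have h1 : u ∈ ⨆ p, V p := by rw [hL.span]; trivial
  obtain ⟨f, hf, hfu⟩ := (Submodule.mem_iSup_iff_exists_finsupp _ _).mp h1
  refine ⟨f, fun q => ⟨?_, hf q⟩, hfu⟩
  by_cases hq : q ∈ f.support
  · set v : ℕ → ℂ := fun p => (p : ℂ) - w / 2
    have hv : Set.InjOn v (f.support : Set ℕ) := by
      intro a _ b _ hab
      have : (a : ℂ) = b := by simpa [v] using hab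
      exact_mod_cast this
    have h2 : Polynomial.aeval H (Lagrange.basis f.support v q) *ᵥ u = f q := by
      rw [← hfu, Finsupp.sum, mulVec_sum, Finset.sum_eq_single q]
      · rw [MTF.H90.aeval_mulVec H (v q) _ (hH q _ (hf q)), Lagrange.eval_basis_self hv hq,
          one_smul]
      · intro p hp hpq
        rw [MTF.H90.aeval_mulVec H (v p) _ (hH p _ (hf p)),
          Lagrange.eval_basis_of_ne (Ne.symm hpq) hp, zero_smul]
      · intro h; exact absurd hq h
    rw [← h2]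
    exact MTF.H90.aeval_mulVec_mem H U (fun x hx => hU H hHg x hx) _ u hu
  · rw [Finsupp.notMem_support_iff.mp hq]; exact U.zero_mem

/-- the form as a bilinear map -/
noncomputable def psi (Ψ : Matrix d d ℂ) : (d → ℂ) →ₗ[ℂ] (d → ℂ) →ₗ[ℂ] ℂ :=
  Matrix.toLinearMap₂' ℂ Ψ

theorem psi_apply (x y : d → ℂ) : psi Ψ x y = x ⬝ᵥ (Ψ *ᵥ y) :=
  Matrix.toLinearMap₂'_apply' Ψ x y

theorem psi_swap (hs : Ψᵀ = Ψ) (x y : d → ℂ) : psi Ψ x y = psi Ψ y x := by
  rw [psi_apply, psi_apply, dotProduct_mulVec, ← mulVec_transpose, hs, dotProduct_comm]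

/-- the functional `X ↦ ψ(y, X x)` -/
noncomputable def phi (Ψ : Matrix d d ℂ) (x y : d → ℂ) : Matrix d d ℂ →ₗ[ℂ] ℂ where
  toFun X := psi Ψ y (X *ᵥ x)
  map_add' X Y := by rw [add_mulVec, map_add]
  map_smul' c X := by rw [smul_mulVec, map_smul]; rfl

theorem phi_apply (x y : d → ℂ) (X : Matrix d d ℂ) : phi Ψ x y X = psi Ψ y (X *ᵥ x) := rfl

theorem phi_vanish (hL : HE w Ψ V g) {U : Submodule ℂ (d → ℂ)} (hU : MTF.Stab g U)
    (hi : ∀ x ∈ U, ∀ y ∈ U, x ⬝ᵥ (Ψ *ᵥ y) = 0) {p q : ℕ} (hpq : w < p + q) {x y : d → ℂ}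
    (hx : x ∈ U) (hxp : x ∈ V p) (hy : y ∈ U) (hyq : y ∈ V q) :
    g ⊔ MTF.F0 V ≤ LinearMap.ker (phi Ψ x y) := by
  apply sup_le
  · intro X hX
    rw [LinearMap.mem_ker, phi_apply, psi_apply]
    exact hi y hy _ (hU X hX x hx)
  · intro X hX
    rw [LinearMap.mem_ker, phi_apply]
    have h1 : x ∈ MTF.Fil V p := by
      unfold MTF.Fil
      exact Submodule.mem_iSup_of_mem p (Submodule.mem_iSup_of_mem (Set.mem_Ici.mpr le_rfl) hxp)
    have h2 : X *ᵥ x ∈ MTF.Fil V p := hX p x h1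
    have h3 : MTF.Fil V p ≤ LinearMap.ker (psi Ψ y) := by
      unfold MTF.Fil
      refine iSup₂_le fun p' hp' z hz => ?_
      rw [LinearMap.mem_ker, psi_apply]
      rw [Set.mem_Ici] at hp'
      exact hL.orth q p' (by omega) y hyq z hz
    exact h3 h2

theorem le_w (hL : HE w Ψ V g) {p : ℕ} {x : d → ℂ} (hx : x ∈ V p) (h0 : x ≠ 0) : p ≤ w := by
  by_contra h
  apply h0
  rw [hL.top p (by omega)] at hx
  exact (Submodule.mem_bot ℂ).mp hx

theorem pair_comp (hL : HE w Ψ V g) {p : ℕ} (hp : p ≤ w) {x : d → ℂ} (hx : x ∈ V p)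
    (f : ℕ →₀ (d → ℂ)) (hf : ∀ q, f q ∈ V q) :
    psi Ψ x (f.sum fun _ z => z) = psi Ψ x (f (w - p)) := by
  rw [Finsupp.sum, map_sum]
  by_cases h : w - p ∈ f.support
  · rw [Finset.sum_eq_single (w - p)]
    · intro q _ hq
      rw [psi_apply]
      exact hL.orth p q (by omega) x hx _ (hf q)
    · intro h'; exact absurd h h'
  · rw [Finsupp.notMem_support_iff.mp h, map_zero]
    refine Finset.sum_eq_zero fun q hq => ?_
    rw [psi_apply]
    refine hL.orth p q ?_ x hx _ (hf q)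
    intro hpq
    apply h
    have : w - p = q := by omega
    rw [this]; exact hq

theorem pos_ne (hL : HE w Ψ V g) {p : ℕ} {x : d → ℂ} (hx : x ∈ V p) (h0 : x ≠ 0) :
    psi Ψ x (star x) ≠ 0 := by
  intro h
  obtain ⟨t, ht, h1⟩ := hL.pos p (le_w hL hx h0) x hx h0
  rw [← psi_apply, h, mul_zero] at h1
  have : (t : ℂ) ≠ 0 := by exact_mod_cast ht.ne'
  exact this h1.symm

theorem nondeg (hL : HE w Ψ V g) {U U' : Submodule ℂ (d → ℂ)} (hU : MTF.Stab g U)
    (hU' : MTF.Stab g U')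
    (hc : IsCompl U U') (hi : ∀ x ∈ U, ∀ y ∈ U, x ⬝ᵥ (Ψ *ᵥ y) = 0) (x : d → ℂ) (hx : x ∈ U)
    (h : ∀ b ∈ U', psi Ψ x b = 0) : x = 0 := by
  obtain ⟨f, hf, hfx⟩ := graded hL hU x hx
  rw [← hfx, Finsupp.sum]
  refine Finset.sum_eq_zero fun p _ => ?_
  by_contra h0
  have hpw : p ≤ w := le_w hL (hf p).2 h0
  have h1 : star (f p) ∈ U ⊔ U' := by rw [hc.sup_eq_top]; trivial
  obtain ⟨a, ha, b, hb, hab⟩ := Submodule.mem_sup.mp h1
  obtain ⟨k, hk, hkb⟩ := graded hL hU' b hb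
  have h2 : psi Ψ (f p) a = 0 := by rw [psi_apply]; exact hi _ (hf p).1 a ha
  have h3 : psi Ψ (f p) (k (w - p)) = psi Ψ (f p) (star (f p)) := by
    rw [← pair_comp hL hpw (hf p).2 k (fun q => (hk q).2), hkb, ← hab, map_add, h2, zero_add]
  have h4 : psi Ψ x (k (w - p)) = psi Ψ (f p) (k (w - p)) := by
    rw [← hfx, Finsupp.sum, map_sum, LinearMap.sum_apply, Finset.sum_eq_single p]
    · intro q _ hq
      by_cases hz : f q = 0
      · rw [hz, map_zero, LinearMap.zero_apply]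
      · have := le_w hL (hf q).2 hz
        rw [psi_apply]
        exact hL.orth q (w - p) (by omega) _ (hf q).2 _ (hk _).2
    · intro h'
      rw [Finsupp.notMem_support_iff.mp h', map_zero, LinearMap.zero_apply]
  exact pos_ne hL (hf p).2 h0 (by rw [← h3, ← h4]; exact h _ (hk _).1)

theorem hom_basis (hL : HE w Ψ V g) {U : Submodule ℂ (d → ℂ)} (hU : MTF.Stab g U) :
    ∃ (e : Fin (Module.finrank ℂ U) → (d → ℂ)) (p : Fin (Module.finrank ℂ U) → ℕ),
      LinearIndependent ℂ e ∧ (∀ j, e j ∈ U) ∧ ∀ j, e j ∈ V (p j) := by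
  obtain ⟨b, hb, hspan, hbi⟩ := exists_linearIndependent ℂ {x : d → ℂ | x ∈ U ∧ ∃ p, x ∈ V p}
  have hS : Submodule.span ℂ {x : d → ℂ | x ∈ U ∧ ∃ p, x ∈ V p} = U := by
    apply le_antisymm
    · rw [Submodule.span_le]; rintro x ⟨hx, _⟩; exact hx
    · intro u hu
      obtain ⟨f, hf, hfu⟩ := graded hL hU u hu
      rw [← hfu, Finsupp.sum]
      exact Submodule.sum_mem _ fun p _ => Submodule.subset_span ⟨(hf p).1, p, (hf p).2⟩
  have hfin : Finite b := hbi.finite
  have : Fintype b := Fintype.ofFinite b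
  have hcard : Fintype.card b = Module.finrank ℂ U := by
    have h1 := finrank_span_eq_card hbi
    rw [Subtype.range_coe, hspan, hS] at h1
    exact h1.symm
  let σ : Fin (Module.finrank ℂ U) ≃ b := (finCongr hcard.symm).trans (Fintype.equivFin b).symm
  choose p hp using fun j => (hb (σ j).2).2
  exact ⟨fun j => (σ j : d → ℂ), p, hbi.comp σ σ.injective, fun j => (hb (σ j).2).1, hp⟩

theorem dual (hL : HE w Ψ V g) {U U' : Submodule ℂ (d → ℂ)} (hU : MTF.Stab g U)
    (hU' : MTF.Stab g U')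
    (hc : IsCompl U U') (hi : ∀ x ∈ U, ∀ y ∈ U, x ⬝ᵥ (Ψ *ᵥ y) = 0) {s : ℕ}
    (e : Fin s → (d → ℂ)) (p : Fin s → ℕ) (he : LinearIndependent ℂ e) (heU : ∀ j, e j ∈ U)
    (hep : ∀ j, e j ∈ V (p j)) :
    ∃ e' : Fin s → (d → ℂ), (∀ j, e' j ∈ U') ∧ (∀ j, e' j ∈ V (w - p j)) ∧
      ∀ i j, psi Ψ (e i) (e' j) = if i = j then 1 else 0 := by
  set L : U' →ₗ[ℂ] (Fin s → ℂ) := LinearMap.pi fun i => (psi Ψ (e i)).comp U'.subtype with hLdef
  have hsurj : LinearMap.range L = ⊤ := by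
    by_contra hne
    obtain ⟨c, hc0, hcL⟩ := Submodule.exists_le_ker_of_lt_top _ (lt_top_iff_ne_top.mpr hne)
    have h1 : ∀ z : Fin s → ℂ, c z = ∑ i, z i * c (Pi.single i 1) := by
      intro z
      conv_lhs => rw [pi_eq_sum_univ' z]
      rw [map_sum]
      refine Finset.sum_congr rfl fun i _ => ?_
      rw [map_smul, smul_eq_mul]
    have h2 : ∑ i, c (Pi.single i 1) • e i = 0 := by
      apply nondeg hL hU hU' hc hi
      · exact Submodule.sum_mem _ fun i _ => Submodule.smul_mem _ _ (heU i)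
      · intro b hb
        have h3 := hcL (LinearMap.mem_range_self L ⟨b, hb⟩)
        rw [LinearMap.mem_ker, h1] at h3
        rw [map_sum, LinearMap.sum_apply, ← h3]
        refine Finset.sum_congr rfl fun i _ => ?_
        rw [map_smul, LinearMap.smul_apply, smul_eq_mul, mul_comm]
        rfl
    rw [Fintype.linearIndependent_iff] at he
    have h4 := he _ h2
    apply hc0
    ext z
    rw [LinearMap.coe_comp, Function.comp_apply, h1]
    simp [h4]
  choose b hb using fun j : Fin s => LinearMap.range_eq_top.mp hsurj (Pi.single j 1)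
  choose f hf hfb using fun j : Fin s => graded hL hU' (b j) (b j).2
  have hpw : ∀ j, p j ≤ w := fun j => le_w hL (hep j) (he.ne_zero j)
  refine ⟨fun j => f j (w - p j), fun j => (hf j _).1, fun j => (hf j _).2, fun i j => ?_⟩
  change psi Ψ (e i) (f j (w - p j)) = _
  by_cases hij : p i = p j
  · rw [← hij, ← pair_comp hL (hpw i) (hep i) (f j) (fun q => (hf j q).2), hfb]
    have h1 := congrFun (hb j) i
    rw [Pi.single_apply] at h1
    exact h1
  · have hne : i ≠ j := fun h => hij (by rw [h])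
    rw [if_neg hne, psi_apply]
    have := hpw i
    have := hpw j
    exact hL.orth _ _ (by omega) _ (hep i) _ (hf j _).2

/-- a family with a dual family is independent -/
theorem indep_of_dual {s : ℕ} (e e' : Fin s → (d → ℂ))
    (he' : ∀ i j, psi Ψ (e i) (e' j) = if i = j then 1 else 0) : LinearIndependent ℂ e' := by
  rw [Fintype.linearIndependent_iff]
  intro c hc0 i
  have h3 : psi Ψ (e i) (∑ j, c j • e' j) = 0 := by rw [hc0, map_zero]
  rw [map_sum] at h3
  simp only [map_smul, he', smul_eq_mul] at h3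
  simpa using h3

theorem finrank_le (hL : HE w Ψ V g) {U U' : Submodule ℂ (d → ℂ)} (hU : MTF.Stab g U)
    (hU' : MTF.Stab g U') (hc : IsCompl U U') (hi : ∀ x ∈ U, ∀ y ∈ U, x ⬝ᵥ (Ψ *ᵥ y) = 0) :
    Module.finrank ℂ U ≤ Module.finrank ℂ U' := by
  obtain ⟨e, p, he, heU, hep⟩ := hom_basis hL hU
  obtain ⟨e', he'U, _, he'⟩ := dual hL hU hU' hc hi e p he heU hep
  have h1 : LinearIndependent ℂ (fun j => (⟨e' j, he'U j⟩ : U')) := by
    rw [Fintype.linearIndependent_iff]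
    intro c hc0 i
    have h2 : ∑ j, c j • e' j = 0 := by
      have := congrArg (fun z : U' => (z : d → ℂ)) hc0
      simpa using this
    have h3 : psi Ψ (e i) (∑ j, c j • e' j) = 0 := by rw [h2, map_zero]
    rw [map_sum] at h3
    simp only [map_smul, he', smul_eq_mul] at h3
    simpa using h3
  have := h1.fintype_card_le_finrank
  rwa [Fintype.card_fin] at this

end Pool.Agent.MTO.H75
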